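import Pool.Agent.J4.H44.KL.Back

/-!
# Hole probabilities of the zeros and the `k`-level correlations (RH)

For a finite union `U` of closed bounded intervals let `hole T U` be the number of the zeros `γ ≤ T`
such that no other zero `γ' ≤ T` has `(γ' - γ) log T / 2π ∈ U`.  The sine kernel conjecture for all
`k` predicts that the proportion of these zeros tends to the hole probability
`H(U) = ∑ (-1)^k / k! ∫_{U^k} det A(u, 0) du` of the sine process seen from one of its points.

On RH the conjecture for all `k` is equivalent to this prediction for all `U`.  More precisely the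
`(m+1)`-level conjecture for all boxes follows from the prediction for the unions of at most `m`
intervals of length at most `δ` (`δ > 0` arbitrary): no assumption about correlations, about the
moments of the numbers of zeros or about close zeros is needed.
-/

open Filter Topology MeasureTheory

namespace Pool.Agent.Results.MP_67227b_nt.HoleProbabilities

/-- multiplicity of `s` as a zero of the Riemann zeta function (order of vanishing at `s`) -/
noncomputable def zmult (s : ℂ) : ℕ := analyticOrderNatAt riemannZeta s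

/-- the number of nontrivial zeros of `ζ` with ordinate in `(0, t]`, with multiplicity -/
noncomputable def NZ (t : ℝ) : ℕ :=
  ∑ᶠ s ∈ {s : ℂ | riemannZeta s = 0 ∧ 0 < s.re ∧ s.re < 1 ∧ 0 < s.im ∧ s.im ≤ t}, zmult s

/-- for `n ≥ 1`: the `n`-th positive ordinate `γ n` of a nontrivial zero of `ζ`, the ordinates being
listed in nondecreasing order and repeated according to multiplicity -/
noncomputable def γ (n : ℕ) : ℝ := sInf {t : ℝ | n ≤ NZ t}

/-- the number of tuples of distinct indices (one index `j none`, and one index `j (some i)` for each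
side `i` of the box) with ordinates `≤ T` such that
`(γ_{j (some i)} - γ_{j none}) log T / 2π ∈ [x_i, y_i]` for all `i` -/
noncomputable def N {ι : Type} (T : ℝ) (x y : ι → ℝ) : ℕ :=
  {j : Option ι → ℕ | Function.Injective j ∧ (∀ i, 1 ≤ j i ∧ γ (j i) ≤ T) ∧
    ∀ i : ι, (γ (j (some i)) - γ (j none)) * (Real.log T / (2 * Real.pi)) ∈
      Set.Icc (x i) (y i)}.ncard

/-- the number of the `n` with `γ n ≤ T` such that `(γ l - γ n) log T / 2π ∉ U` for all `l ≠ n` with
`γ l ≤ T` -/
noncomputable def hole (T : ℝ) (U : Set ℝ) : ℕ :=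
  {n : ℕ | 1 ≤ n ∧ γ n ≤ T ∧ ∀ l : ℕ, 1 ≤ l → γ l ≤ T → l ≠ n →
    (γ l - γ n) * (Real.log T / (2 * Real.pi)) ∉ U}.ncard

/-- the coordinates of the point `(u, 0)` -/
def pt {ι : Type} (u : ι → ℝ) (o : Option ι) : ℝ := o.elim 0 u

/-- the matrix `A(u, 0)` with the entries `sin π(u_i - u_j) / (π(u_i - u_j))` and `1` on the diagonal -/
noncomputable def A {ι : Type} (u : ι → ℝ) : Matrix (Option ι) (Option ι) ℝ :=
  Matrix.of fun i j => Real.sinc (Real.pi * (pt u i - pt u j))

/-- the `(m+1)`-level conjecture: `N_{m+1}(T; B) / ((T/2π) log T) → ∫_B det A(u, 0) du` for all boxes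
`B` in `ℝ ^ m` -/
def Level (m : ℕ) : Prop :=
  ∀ x y : Fin m → ℝ, (∀ i, x i ≤ y i) →
    Tendsto (fun T : ℝ => (N T x y : ℝ) / (T / (2 * Real.pi) * Real.log T)) atTop
      (𝓝 (∫ u in Set.Icc x y, (A u).det))

/-- the `k`-th term `(-1)^k / k! ∫_{U^k} det A(u, 0) du` -/
noncomputable def term (U : Set ℝ) (k : ℕ) : ℝ :=
  (-1) ^ k / (Nat.factorial k : ℝ) * ∫ u in Set.univ.pi (fun _ : Fin k => U), (A u).det

/-- the hole probability of the sine process seen from one of its points -/
noncomputable def H (U : Set ℝ) : ℝ := ∑' k : ℕ, term U k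

/-- the proportion of the zeros without neighbours in `U` tends to `H(U)` -/
def HoleLimit (U : Set ℝ) : Prop :=
  Tendsto (fun T : ℝ => (hole T U : ℝ) / (T / (2 * Real.pi) * Real.log T)) atTop (𝓝 (H U))

lemma rhs_of (hRH : RiemannHypothesis) : SP.RHs := by
  intro s h0 h1 hz
  apply hRH s hz
  · rintro ⟨n, hn⟩
    rw [hn] at h0
    simp at h0
    have : (0 : ℝ) ≤ n := Nat.cast_nonneg n
    linarith
  · intro h
    rw [h] at h1
    simp at h1

lemma hole_eq (T : ℝ) (U : Set ℝ) : hole T U = Pool.Agent.J4.H44.KL.hole T U := by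
  classical
  unfold Pool.Agent.J4.H44.KL.hole hole
  rw [← Set.ncard_coe_finset]
  congr 1
  ext n
  rw [Finset.mem_coe, Finset.mem_filter, Finset.mem_Icc, Finset.eq_empty_iff_forall_notMem]
  constructor
  · rintro ⟨h1, h2, h3⟩
    refine ⟨⟨h1, (SG.ord_le_iff h1 _).mp h2⟩, fun l hl => ?_⟩
    rw [Pool.Agent.J4.H44.KL.mem_nbs, Finset.mem_Icc] at hl
    exact h3 l hl.1.1 ((SG.ord_le_iff hl.1.1 _).mpr hl.1.2) hl.2.1 hl.2.2
  · rintro ⟨⟨h1, h2⟩, h3⟩
    refine ⟨h1, (SG.ord_le_iff h1 _).mpr h2, fun l hl1 hl2 hl3 hl4 => h3 l ?_⟩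
    rw [Pool.Agent.J4.H44.KL.mem_nbs, Finset.mem_Icc]
    exact ⟨⟨hl1, (SG.ord_le_iff hl1 _).mp hl2⟩, hl3, hl4⟩

lemma holeLimit_iff (U : Set ℝ) : HoleLimit U ↔
    Tendsto (fun T : ℝ => (Pool.Agent.J4.H44.KL.hole T U : ℝ) / Pool.Agent.J4.H44.KL.MT T) atTop
      (𝓝 (Pool.Agent.J4.H44.KL.HU U)) := by
  unfold HoleLimit
  simp only [hole_eq]
  rfl

lemma level_good {m : ℕ} (h : Level m) (a b : Fin m → ℝ) :
    Pool.Agent.J4.H44.KL.Good (fun i => Set.Icc (a i) (b i)) := by
  by_cases hab : ∀ i, a i ≤ b i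
  · have h1 := h a b hab
    have e1 : ∫ u in Set.Icc a b, (A u).det = Pool.Agent.J4.H44.KL.JV (fun i => Set.Icc (a i) (b i)) := by
      unfold Pool.Agent.J4.H44.KL.JV
      rw [Set.pi_univ_Icc]
      rfl
    rw [e1] at h1
    refine h1.congr fun T => ?_
    rw [← Pool.Agent.J4.H44.KL.NV_Nk]
    rfl
  · push Not at hab
    obtain ⟨i, hi⟩ := hab
    have hJ : Pool.Agent.J4.H44.KL.JV (fun i => Set.Icc (a i) (b i)) = 0 := by
      unfold Pool.Agent.J4.H44.KL.JV
      have : Set.univ.pi (fun i => Set.Icc (a i) (b i)) = ∅ := by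
        rw [Set.univ_pi_eq_empty_iff]
        exact ⟨i, Set.Icc_eq_empty (not_le.2 hi)⟩
      rw [this, Measure.restrict_empty, integral_zero_measure]
    have hN : ∀ T : ℝ, Pool.Agent.J4.H44.KL.NV T (fun i => Set.Icc (a i) (b i)) = 0 := by
      intro T
      unfold Pool.Agent.J4.H44.KL.NV
      apply Finset.sum_eq_zero
      intro n _
      rw [Finset.card_eq_zero, Finset.eq_empty_iff_forall_notMem]
      intro l hl
      rw [Pool.Agent.J4.H44.KL.mem_inj] at hl
      have h1 := hl.1 i
      rw [Pool.Agent.J4.H44.KL.mem_nbs] at h1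
      have h3 : Pool.Agent.J4.H44.KL.ps T n (l i) ∈ Set.Icc (a i) (b i) := h1.2.2
      rw [Set.Icc_eq_empty (not_le.2 hi)] at h3
      exact h3
    unfold Pool.Agent.J4.H44.KL.Good
    simp only [hN, hJ, Nat.cast_zero, zero_div]
    exact tendsto_const_nhds

lemma good_level {m : ℕ} (h : ∀ a b : Fin m → ℝ, Pool.Agent.J4.H44.KL.Good (fun i => Set.Icc (a i) (b i))) :
    Level m := by
  intro a b _
  have h1 := h a b
  have e1 : ∫ u in Set.Icc a b, (A u).det = Pool.Agent.J4.H44.KL.JV (fun i => Set.Icc (a i) (b i)) := by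
    unfold Pool.Agent.J4.H44.KL.JV
    rw [Set.pi_univ_Icc]
    rfl
  rw [e1]
  refine h1.congr fun T => ?_
  rw [← Pool.Agent.J4.H44.KL.NV_Nk]
  rfl

/-- **Hole probabilities and correlations of the zeros (RH).**
(1) The `k`-level conjecture holds for all `k` and all boxes if and only if for every finite union `U`
of closed bounded intervals (which may overlap, and may be points) the proportion of the zeros
without neighbours in `U` tends to `H(U)`.
(2) For `m ≥ 1` and `δ > 0`, the `(m+1)`-level conjecture for all boxes follows from the convergence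
of the hole probabilities for the unions of at most `m` intervals of length at most `δ` (in the
statement: `m` intervals, which may be empty).
(3) The series `H(U)` is absolutely convergent for all finite unions of closed bounded intervals. -/
theorem result (hRH : RiemannHypothesis) :
    ((∀ m : ℕ, Level m) ↔
      ∀ (r : ℕ) (a b : Fin r → ℝ), HoleLimit (⋃ i, Set.Icc (a i) (b i))) ∧
    (∀ m : ℕ, 1 ≤ m → ∀ δ : ℝ, 0 < δ →
      (∀ a b : Fin m → ℝ, (∀ i, b i - a i ≤ δ) → HoleLimit (⋃ i, Set.Icc (a i) (b i))) → Level m) ∧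
    (∀ (r : ℕ) (a b : Fin r → ℝ), Summable fun k => |term (⋃ i, Set.Icc (a i) (b i)) k|) := by
  have h2 : ∀ m : ℕ, 1 ≤ m → ∀ δ : ℝ, 0 < δ →
      (∀ a b : Fin m → ℝ, (∀ i, b i - a i ≤ δ) → HoleLimit (⋃ i, Set.Icc (a i) (b i))) → Level m := by
    intro m hm δ hδ h
    refine good_level fun x y => ?_
    exact Pool.Agent.J4.H44.KL.hole_corr (rhs_of hRH) hm hδ
      (fun a b hab => (holeLimit_iff _).1 (h a b hab)) x y
  refine ⟨⟨fun h r a b => ?_, fun h m => ?_⟩, h2, fun r a b => ?_⟩
  · rw [holeLimit_iff]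
    exact Pool.Agent.J4.H44.KL.corr_hole (fun k a b => level_good (h k) a b) ⟨r, a, b, rfl⟩
  · rcases Nat.eq_zero_or_pos m with hm | hm
    · subst hm
      -- one box, the whole of `ℝ ^ 0`
      intro x y _
      have h0 := h 0 (fun i => i.elim0) (fun i => i.elim0)
      have he : (⋃ i : Fin 0, Set.Icc ((fun i => i.elim0 : Fin 0 → ℝ) i) ((fun i => i.elim0 : Fin 0 → ℝ) i)) = ∅ := by
        simp
      rw [he, holeLimit_iff] at h0
      have hH : Pool.Agent.J4.H44.KL.HU ∅ = 1 := by
        obtain ⟨E, _, hE⟩ := Pool.Agent.J4.H44.KL.HU_near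
        have := hE ∅ 0 le_rfl zero_le_one MeasurableSet.empty (by simp)
        rw [mul_zero] at this
        have := abs_nonpos_iff.1 this
        linarith
      rw [hH] at h0
      have e1 : ∫ u in Set.Icc x y, (A u).det = 1 := by
        have hA : ∀ u : Fin 0 → ℝ, (A u).det = 1 := by
          intro u
          have h4 : A u = 1 := by
            ext i j
            rcases i with _ | i
            · rcases j with _ | j
              · show Real.sinc (Real.pi * (0 - 0)) = _
                simp
              · exact j.elim0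
            · exact i.elim0
          rw [h4, Matrix.det_one]
        simp only [hA]
        rw [setIntegral_const, measureReal_def, Measure.volume_pi_eq_dirac default]
        simp
      rw [e1]
      refine h0.congr fun T => ?_
      have e2 : N T x y = Pool.Agent.J4.H44.KL.hole T ∅ := by
        have e3 : N T x y = Pool.Agent.J4.H44.KL.NV T (fun i => Set.Icc (x i) (y i)) :=
          Pool.Agent.J4.H44.KL.NV_Nk T x y
        rw [e3, Pool.Agent.J4.H44.KL.hole_empty]
        unfold Pool.Agent.J4.H44.KL.NV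
        have e4 : ∀ B : Fin 0 → Finset ℕ, (Pool.Agent.J4.H44.KL.inj B).card = 1 := by
          intro B
          rw [Finset.card_eq_one]
          refine ⟨fun i => i.elim0, ?_⟩
          ext l
          rw [Pool.Agent.J4.H44.KL.mem_inj, Finset.mem_singleton]
          refine ⟨fun _ => Subsingleton.elim _ _, fun _ => ⟨fun i => i.elim0, fun i => i.elim0⟩⟩
        simp only [e4, Finset.sum_const, Nat.card_Icc, Nat.add_sub_cancel, smul_eq_mul, mul_one]
      rw [e2]
      rfl
    · exact h2 m hm 1 one_pos fun a b _ => h m a b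
  · have hU : Pool.Agent.J4.H44.KL.FU (⋃ i, Set.Icc (a i) (b i)) := ⟨r, a, b, rfl⟩
    exact (Pool.Agent.J4.H44.KL.HU_summable (Pool.Agent.J4.H44.KL.FU_meas hU)
      (c := (volume (⋃ i, Set.Icc (a i) (b i))).toReal) ENNReal.toReal_nonneg
      (by rw [ENNReal.ofReal_toReal (Pool.Agent.J4.H44.KL.FU_vol hU)])).abs

end Pool.Agent.Results.MP_67227b_nt.HoleProbabilities
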