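import Pool.Agent.J4.H44.RG.Main4

/-!
# The sum rule for tuples of zeros; local one-sided bounds for one level suffice (RH)

`N T x y` is the number of tuples of distinct zeros whose distances to the last one, in units of the
mean spacing, lie in the box with sides `[x_i, y_i]` (the `N_k(T; B)` of the problem, `k - 1` being the
number of the sides).

On RH the tuples in every box obey the sum rule (perfect screening) of the sine process: counted with
a flat weight, a tuple of `k` zeros has on the average exactly `k` further zeros fewer than there would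
be around a point of the line.  It follows that, for every `k`, the upper bounds of the `k`-level
conjecture for all small boxes imply the `k`-level conjecture for all boxes and all lower levels.  The
lower bounds for all small boxes which do not meet the diagonals (nothing is assumed at the diagonals,
for instance on multiple zeros) imply the same.  So the conjecture for all `k` is equivalent to: for infinitely many `k` one of
these two local halves of the `k`-level conjecture holds.

Idea of the proof: number rigidity.  The average `g` of Fejer kernels at many dyadic scales is flat, and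
by the prime number sums the linear statistic `∑ g(γ' - t)` of the zeros is almost constant (starting
result `NumberRigidity`).  Therefore a further zero, counted with the nonnegative flat weight `g` which
tends to `1`, contributes exactly `∫ g - (m + 1) + o(1)` to the number of the `(m+1)`-tuples in a box.  By
the reproducing property of the sine kernel the predicted limits have the same property.  As the
difference of both sides has a sign, and as `g → 1`, it vanishes.
-/

set_option autoImplicit false

open Filter Topology MeasureTheory

namespace Pool.Agent.Results.MP_67227b_nt.OneSidedBoundsSuffice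

/-- multiplicity of `s` as a zero of the Riemann zeta function (order of vanishing at `s`) -/
noncomputable def zmult (s : ℂ) : ℕ := analyticOrderNatAt riemannZeta s

/-- the number of nontrivial zeros of `ζ` with ordinate in `(0, t]`, with multiplicity -/
noncomputable def NZ (t : ℝ) : ℕ :=
  ∑ᶠ s ∈ {s : ℂ | riemannZeta s = 0 ∧ 0 < s.re ∧ s.re < 1 ∧ 0 < s.im ∧ s.im ≤ t}, zmult s

/-- for `n ≥ 1`: the `n`-th positive ordinate `γ n` of a nontrivial zero of `ζ`, the ordinates being
listed in nondecreasing order and repeated according to multiplicity -/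
noncomputable def γ (n : ℕ) : ℝ := sInf {t : ℝ | n ≤ NZ t}

/-- the tuples of distinct indices (one index `j none`, and one index `j (some i)` for each side `i` of
the box) with ordinates `≤ T` such that `(γ_{j (some i)} - γ_{j none}) log T / 2π ∈ [x_i, y_i]` for
all `i` -/
def tuples {ι : Type} (T : ℝ) (x y : ι → ℝ) : Set (Option ι → ℕ) :=
  {j | Function.Injective j ∧ (∀ i, 1 ≤ j i ∧ γ (j i) ≤ T) ∧
    ∀ i : ι, (γ (j (some i)) - γ (j none)) * (Real.log T / (2 * Real.pi)) ∈
      Set.Icc (x i) (y i)}

/-- the number of these tuples -/
noncomputable def N {ι : Type} (T : ℝ) (x y : ι → ℝ) : ℕ := (tuples T x y).ncard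

/-- the coordinates of the point `(u, 0)` -/
def pt {ι : Type} (u : ι → ℝ) (o : Option ι) : ℝ := o.elim 0 u

/-- the matrix `A(u, 0)` with the entries `sin π(u_i - u_j) / (π(u_i - u_j))` and `1` on the diagonal -/
noncomputable def A {ι : Type} (u : ι → ℝ) : Matrix (Option ι) (Option ι) ℝ :=
  Matrix.of fun i j => Real.sinc (Real.pi * (pt u i - pt u j))

/-- the number of tuples in the box, divided by the asymptotic number of zeros -/
noncomputable def ratio {m : ℕ} (T : ℝ) (x y : Fin m → ℝ) : ℝ :=
  (N T x y : ℝ) / (T / (2 * Real.pi) * Real.log T)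

/-- the predicted limit: the integral of `det A(u, 0)` over the box -/
noncomputable def J {m : ℕ} (x y : Fin m → ℝ) : ℝ := ∫ u in Set.Icc x y, (A u).det

/-- the `(m+1)`-level conjecture: `N_{m+1}(T; B) / ((T/2π) log T) → ∫_B det A(u, 0) du` for all boxes
`B` in `ℝ ^ m` -/
def Level (m : ℕ) : Prop :=
  ∀ x y : Fin m → ℝ, (∀ i, x i ≤ y i) → Tendsto (fun T : ℝ => ratio T x y) atTop (𝓝 (J x y))

/-- its upper half for small boxes: for some `δ > 0` the upper limit is at most the predicted limit, for
all boxes with sides at most `δ` -/
def LevelUpper (m : ℕ) : Prop :=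
  ∃ δ : ℝ, 0 < δ ∧ ∀ x y : Fin m → ℝ, (∀ i, x i ≤ y i ∧ y i ≤ x i + δ) →
    ∀ ε : ℝ, 0 < ε → ∀ᶠ T : ℝ in atTop, ratio T x y ≤ J x y + ε

/-- the box does not meet the diagonals `u_i = 0`, `u_i = u_j` -/
def OffDiag {m : ℕ} (x y : Fin m → ℝ) : Prop :=
  (∀ i, (0 : ℝ) ∉ Set.Icc (x i) (y i)) ∧
    ∀ i j, i ≠ j → Disjoint (Set.Icc (x i) (y i)) (Set.Icc (x j) (y j))

/-- its lower half for small boxes off the diagonals: for some `δ > 0` the lower limit is at least the
predicted limit, for all boxes with sides at most `δ` which do not meet the diagonals -/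
def LevelLower (m : ℕ) : Prop :=
  ∃ δ : ℝ, 0 < δ ∧ ∀ x y : Fin m → ℝ, (∀ i, x i ≤ y i ∧ y i ≤ x i + δ) → OffDiag x y →
    ∀ ε : ℝ, 0 < ε → ∀ᶠ T : ℝ in atTop, J x y - ε ≤ ratio T x y

/-- the sum, over the tuples in the box and over the zeros `≤ T` which do not belong to the tuple, of
the weight `G` at the distance of this further zero to the last zero of the tuple, in units of the mean
spacing -/
noncomputable def further {m : ℕ} (T : ℝ) (x y : Fin m → ℝ) (G : ℝ → ℝ) : ℝ :=
  ∑ᶠ j ∈ tuples T x y, ∑ᶠ l ∈ {l : ℕ | 1 ≤ l ∧ γ l ≤ T ∧ ∀ i, l ≠ j i},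
    G ((γ l - γ (j none)) * (Real.log T / (2 * Real.pi)))

/-- **The sum rule, and local one-sided bounds suffice (RH).**
(1) Perfect screening: for every box and every `ε > 0` there is a weight `G`, continuous, with compact
support, `0 ≤ G ≤ 1`, and `G ≥ 1 - ε` on `[-1/ε, 1/ε]`, such that for large `T` the weighted number of
the further zeros is `(∫ G - (m + 1)) N_{m+1}(T; B)` up to an error of at most `ε (T/2π) log T`.
(2) If for one `m` the upper bounds `limsup N_{m+1}(T; B) / ((T/2π) log T) ≤ ∫_B det A` hold for all boxes
`B ⊂ ℝ ^ m` with sides at most some `δ > 0`, then the `(k+1)`-level conjecture holds for all `k ≤ m` (all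
boxes).
(3) The same with the lower bounds for all boxes with sides at most some `δ > 0` off the diagonals.
(4) The conjecture holds for all levels iff for infinitely many `m` one of these two halves holds. -/
theorem result (hRH : RiemannHypothesis) :
    (∀ (m : ℕ) (x y : Fin m → ℝ) (ε : ℝ), 0 < ε →
      ∃ G : ℝ → ℝ, Continuous G ∧ HasCompactSupport G ∧ (∀ v, 0 ≤ G v ∧ G v ≤ 1) ∧
        (∀ v, |v| ≤ 1 / ε → 1 - ε ≤ G v) ∧ ∀ᶠ T : ℝ in atTop,
          |further T x y G - ((∫ v, G v) - (m + 1)) * N T x y| ≤
            ε * (T / (2 * Real.pi) * Real.log T)) ∧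
    (∀ m k : ℕ, k ≤ m → LevelUpper m → Level k) ∧
    (∀ m k : ℕ, k ≤ m → LevelLower m → Level k) ∧
    ((∀ m : ℕ, Level m) ↔ ∃ᶠ m : ℕ in atTop, LevelUpper m ∨ LevelLower m) :=
  Pool.Agent.J4.H44.RG.main4 hRH

end Pool.Agent.Results.MP_67227b_nt.OneSidedBoundsSuffice
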