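import Pool.Agent.J4.H50.Kl6

set_option autoImplicit false

/-!
# Tuples of zeros with prescribed differences, in every weight `|R|²` and over growing Bohr sets

No hypothesis is assumed. Let `U` be any measurable subset of `[0, T]` of measure `2 π Λ / log T` (`Λ`
mean spacings; for instance an interval, or a union of intervals placed anywhere in `[0, T]`).

1. For every Dirichlet polynomial `R` of length `T ^ δ` with arbitrary coefficients `r(n)` and every
interval `(T, T + K]`, `T ^ (1 - δ) ≤ K ≤ T / 2`, the number of the `k`-tuples of distinct simple zeros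
of zeta on the critical line with ordinates in `t + U`, averaged over `t` with the weight `|R(t)|²`,
is at least `x (x - 1) … (x - k + 1)`, `x = (0.6725 - ε) Λ`, as soon as `x ≥ k - 1`; for all zeros,
counted with multiplicity, the same holds with `x = (1 - ε) Λ`. Everything is uniform in `R`, `U`,
`Λ`, `k` and `K`.

2. If `0.6725 Λ > k - 1`: for all finite sets `P` of primes, all tolerances `0 < e_p ≤ 1` with
`(1 + log |P|) ∑ (log p) / e_p ≤ c log T` and all points `z_p` of the unit circle there are at least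
`c K log T ∏ c e_p / (1 + log |P|)` such `k`-tuples in translates `t + U` with `|p ^ (i t) - z_p| < e_p`
for all `p` in `P`; and as many `k`-tuples of distinct simple critical zeros within `Λ` mean spacings, all
the ordinates `γ` of which satisfy `|p ^ (i γ) - z_p| < e_p` for all `p` in `P`.

3. In particular, for `ε, η > 0` there are at least `K T ^ (-η)` clusters of `k` simple critical zeros
within `Λ` mean spacings, with `|p ^ (i γ) - z_p| < ε` for ALL the primes `p ≤ c log T / log log T`.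

Idea of the proof: the theorem `SimpleZerosEveryWeight` of the starting files is applied to all the shifted
polynomials `R(t - u)`, `u` in `U`, which have the same norm; this gives the first moment of the
number of zeros in `t + U` for the measure `|R(t)|² dt`. Jensen's inequality for the descending
factorial and the mean value theorem give 1. For 2 and 3 the weight is a product over `p` of powers
of Fejér kernels, cut off outside the Bohr set: by the upper bound for all zeros the part which is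
cut off is negligible.
-/

open Complex MeasureTheory

namespace Pool.Agent.Results.MP_67227b_nt.TuplesEveryWeight

/-- `1/2 + i x`, `x > 0`, is a simple zero of zeta -/
def IsSimpleOrd (x : ℝ) : Prop :=
  0 < x ∧ riemannZeta (1 / 2 + I * x) = 0 ∧ deriv riemannZeta (1 / 2 + I * x) ≠ 0

/-- the multiplicity of a zero of zeta -/
noncomputable def mult (s : ℂ) : ℕ := analyticOrderNatAt riemannZeta s

/-- the number of simple zeros on the critical line with ordinates in `t + U` -/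
noncomputable def NS (U : Set ℝ) (t : ℝ) : ℕ := {x : ℝ | IsSimpleOrd x ∧ x - t ∈ U}.ncard

/-- the number of zeros in the critical strip with ordinates in `t + U`, with multiplicity -/
noncomputable def NA (U : Set ℝ) (t : ℝ) : ℕ :=
  ∑ᶠ s ∈ {s : ℂ | riemannZeta s = 0 ∧ 0 < s.re ∧ s.re < 1 ∧ s.im - t ∈ U}, mult s

/-- the Dirichlet polynomial `∑ r(n) n ^ (- i t)`, `n` in `S` -/
noncomputable def R (S : Finset ℕ) (r : ℕ → ℂ) (t : ℝ) : ℂ :=
  ∑ n ∈ S, r n * (n : ℂ) ^ (-(I * t))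

lemma simple_iff {T₁ T₂ x : ℝ} (h : 0 ≤ T₁) :
    x ∈ Pool.Agent.Results.MP_6bc78b_nt.SimpleZerosEveryWeight.simpleZeros T₁ T₂ ↔
      T₁ < x ∧ x ≤ T₂ ∧ IsSimpleOrd x := by
  unfold Pool.Agent.Results.MP_6bc78b_nt.SimpleZerosEveryWeight.simpleZeros IsSimpleOrd
  rw [Set.mem_ofPred_eq, Pool.Agent.Results.MP_6bc78b_nt.SimpleZerosEveryWeight.Z_zero_iff]
  constructor
  · rintro ⟨h1, h2, h3, h4⟩
    refine ⟨h1, h2, by linarith, h3, ?_⟩
    rw [(Pool.Agent.Results.MP_6bc78b_nt.SimpleZerosEveryWeight.Z_hasDerivAt x h3).deriv] at h4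
    intro h5
    apply h4
    rw [h5]
    ring
  · rintro ⟨h1, h2, -, h3, h4⟩
    refine ⟨h1, h2, h3, ?_⟩
    rw [(Pool.Agent.Results.MP_6bc78b_nt.SimpleZerosEveryWeight.Z_hasDerivAt x h3).deriv]
    exact mul_ne_zero (Pool.Agent.Results.MP_6bc78b_nt.SimpleZerosEveryWeight.phase_ne x)
      (mul_ne_zero h4 I_ne_zero)

lemma NS_eq {T K t : ℝ} (hT : 1 ≤ T) (hK : K ≤ T / 2) (ht : t ∈ Set.Ioc T (T + K)) {U : Set ℝ}
    (hU : U ⊆ Set.Icc 0 T) : NS U t = Pool.Agent.J4.H50.Kl.NS T hT U t := by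
  classical
  unfold NS Pool.Agent.J4.H50.Kl.NS Pool.Agent.J4.H50.Kl.NU
  rw [← Finset.card_eq_sum_ones, ← Set.ncard_coe_finset]
  congr 1
  ext x
  unfold Pool.Agent.J4.H50.Kl.XS
  rw [Finset.mem_coe, Finset.mem_filter, Set.Finite.mem_toFinset,
    simple_iff (by linarith), Set.mem_ofPred_eq, id]
  constructor
  · rintro ⟨h1, h2⟩
    have h3 := hU h2
    exact ⟨⟨by linarith [h3.1, ht.1], by linarith [h3.2, ht.2], h1⟩, h2⟩
  · rintro ⟨⟨-, -, h1⟩, h2⟩
    exact ⟨h1, h2⟩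

lemma NA_eq {T K t : ℝ} (hT : 1 ≤ T) (hK : K ≤ T / 2) (ht : t ∈ Set.Ioc T (T + K)) {U : Set ℝ}
    (hU : U ⊆ Set.Icc 0 T) : NA U t = Pool.Agent.J4.H50.Kl.NA T hT U t := by
  classical
  unfold NA Pool.Agent.J4.H50.Kl.NA Pool.Agent.J4.H50.Kl.NU
  have h0 : {s : ℂ | riemannZeta s = 0 ∧ 0 < s.re ∧ s.re < 1 ∧ s.im - t ∈ U} =
      ((Pool.Agent.J4.H50.Kl.XA T hT).filter (fun s => s.im - t ∈ U) : Finset ℂ) := by
    ext s
    unfold Pool.Agent.J4.H50.Kl.XA
    rw [Finset.mem_coe, Finset.mem_filter, Set.Finite.mem_toFinset]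
    unfold Pool.Agent.Results.MP_6bc78b_nt.SimpleZerosEveryWeight.allZeros
    rw [Set.mem_ofPred_eq, Set.mem_ofPred_eq]
    constructor
    · rintro ⟨h1, h2, h3, h4⟩
      have h5 := hU h4
      exact ⟨⟨h1, h2, h3, by linarith [h5.1, ht.1], by linarith [h5.2, ht.2]⟩, h4⟩
    · rintro ⟨⟨h1, h2, h3, -, -⟩, h4⟩
      exact ⟨h1, h2, h3, h4⟩
  rw [h0, finsum_mem_coe_finset]
  rfl

theorem result :
    -- every weight
    (∀ ε : ℝ, 0 < ε → ∃ δ T₀ : ℝ, 0 < δ ∧ ∀ T : ℝ, T₀ ≤ T →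
      ∀ K : ℝ, T ^ (1 - δ) ≤ K → K ≤ T / 2 →
      ∀ S : Finset ℕ, (∀ n ∈ S, 1 ≤ n ∧ (n : ℝ) ≤ T ^ δ) → ∀ r : ℕ → ℂ,
      ∀ (U : Set ℝ) (Λ : ℝ), MeasurableSet U → U ⊆ Set.Icc 0 T → 0 ≤ Λ →
      volume U = ENNReal.ofReal (2 * Real.pi * Λ / Real.log T) → ∀ k : ℕ, 1 ≤ k →
      ((k : ℝ) - 1 ≤ (0.6725 - ε) * Λ →
        K * (∑ n ∈ S, ‖r n‖ ^ 2) * ∏ i ∈ Finset.range k, ((0.6725 - ε) * Λ - i) ≤
          ∫ t in T..(T + K), ‖R S r t‖ ^ 2 * ((NS U t).descFactorial k : ℝ)) ∧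
      ((k : ℝ) - 1 ≤ (1 - ε) * Λ →
        K * (∑ n ∈ S, ‖r n‖ ^ 2) * ∏ i ∈ Finset.range k, ((1 - ε) * Λ - i) ≤
          ∫ t in T..(T + K), ‖R S r t‖ ^ 2 * ((NA U t).descFactorial k : ℝ))) ∧
    -- Bohr sets
    (∀ (k : ℕ) (Λ : ℝ), 1 ≤ k → 0 < Λ → (k : ℝ) - 1 < 0.6725 * Λ →
      ∃ c T₀ : ℝ, 0 < c ∧ ∀ T : ℝ, T₀ ≤ T → ∀ K : ℝ, T ^ (1 - c) ≤ K → K ≤ T / 2 →
      ∀ P : Finset ℕ, (∀ p ∈ P, p.Prime) → ∀ e : ℕ → ℝ, (∀ p ∈ P, 0 < e p ∧ e p ≤ 1) →
      (1 + Real.log P.card) * ∑ p ∈ P, Real.log p / e p ≤ c * Real.log T →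
      ∀ z : ℕ → ℂ, (∀ p, ‖z p‖ = 1) →
      (∀ U : Set ℝ, MeasurableSet U → U ⊆ Set.Icc 0 T →
        volume U = ENNReal.ofReal (2 * Real.pi * Λ / Real.log T) →
        c * (K * Real.log T) * ∏ p ∈ P, (c * e p / (1 + Real.log P.card)) ≤
          ({x : Fin k → ℝ | Function.Injective x ∧ (∀ j, IsSimpleOrd (x j)) ∧
            ∃ t : ℝ, T < t ∧ t ≤ T + K ∧ (∀ j, x j - t ∈ U) ∧
              ∀ p ∈ P, ‖(p : ℂ) ^ (I * t) - z p‖ < e p}.ncard : ℝ)) ∧
      c * (K * Real.log T) * ∏ p ∈ P, (c * e p / (1 + Real.log P.card)) ≤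
        ({x : Fin k → ℝ | Function.Injective x ∧
          (∀ j, T < x j ∧ x j ≤ T + K ∧ IsSimpleOrd (x j)) ∧
          (∀ i j, |x i - x j| ≤ 2 * Real.pi * Λ / Real.log T) ∧
            ∀ j, ∀ p ∈ P, ‖(p : ℂ) ^ (I * x j) - z p‖ < e p}.ncard : ℝ)) ∧
    -- all primes up to `c log T / log log T`
    (∀ (k : ℕ) (Λ ε η : ℝ), 1 ≤ k → 0 < Λ → (k : ℝ) - 1 < 0.6725 * Λ → 0 < ε → 0 < η →
      ∃ c T₀ : ℝ, 0 < c ∧ ∀ T : ℝ, T₀ ≤ T → ∀ K : ℝ, T ^ (1 - c) ≤ K → K ≤ T / 2 →
      ∀ z : ℕ → ℂ, (∀ p, ‖z p‖ = 1) →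
      K * T ^ (-η) ≤ ({x : Fin k → ℝ | Function.Injective x ∧
          (∀ j, T < x j ∧ x j ≤ T + K ∧ IsSimpleOrd (x j)) ∧
          (∀ i j, |x i - x j| ≤ 2 * Real.pi * Λ / Real.log T) ∧
            ∀ j, ∀ p : ℕ, p.Prime → (p : ℝ) ≤ c * Real.log T / Real.log (Real.log T) →
              ‖(p : ℂ) ^ (I * x j) - z p‖ < ε}.ncard : ℝ)) := by
  refine ⟨?_, ?_, ?_⟩
  · intro ε hε
    obtain ⟨δ, T₀, hδ, hT₀, h⟩ := Pool.Agent.J4.H50.Kl.every_weight ε hε
    refine ⟨δ, T₀, hδ, fun T hTT K hK1 hK2 S hS r U Λ hU hUT hΛ hUv k hk => ?_⟩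
    have hT : 1 ≤ T := hT₀.trans hTT
    have hK0 : 0 ≤ K := le_trans (by positivity) hK1
    obtain ⟨h1, h2⟩ := h T hTT hT K hK1 hK2 S hS r U Λ hU hUT hΛ hUv k (by omega)
    rw [intervalIntegral.integral_of_le (by linarith)] at h1 h2 ⊢
    rw [intervalIntegral.integral_of_le (by linarith)]
    constructor
    · intro hk2
      have h3 := h1 hk2
      rw [descPochhammer_eval_eq_prod_range] at h3
      refine h3.trans (le_of_eq ?_)
      refine setIntegral_congr_fun measurableSet_Ioc fun t ht => ?_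
      rw [NS_eq hT hK2 ht hUT]
      rfl
    · intro hk2
      have h3 := h2 hk2
      rw [descPochhammer_eval_eq_prod_range] at h3
      refine h3.trans (le_of_eq ?_)
      refine setIntegral_congr_fun measurableSet_Ioc fun t ht => ?_
      rw [NA_eq hT hK2 ht hUT]
      rfl
  · intro k Λ hk hΛ0 hΛ
    obtain ⟨c₁, T₁, hc₁, hT₁, h₁⟩ := Pool.Agent.J4.H50.Kl.bohr_tuples k (by omega) Λ hΛ0 hΛ
    obtain ⟨c₂, T₂, hc₂, hT₂, h₂⟩ := Pool.Agent.J4.H50.Kl.clusters k (by omega) Λ hΛ0 hΛ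
    refine ⟨min c₁ c₂, max T₁ T₂, lt_min hc₁ hc₂, ?_⟩
    intro T hTT K hK1 hK2 P hP e he hlen z hz
    have hT3 : 3 ≤ T := hT₁.trans ((le_max_left _ _).trans hTT)
    have hT : 1 ≤ T := by linarith
    have hlog : 0 ≤ Real.log T := Real.log_nonneg hT
    have hK0 : 0 ≤ K := le_trans (by positivity) hK1
    have ha0 : 0 ≤ Real.log (P.card : ℝ) := Real.log_natCast_nonneg _
    have hmono : ∀ c' : ℝ, min c₁ c₂ ≤ c' → min c₁ c₂ * (K * Real.log T) *
        ∏ p ∈ P, (min c₁ c₂ * e p / (1 + Real.log P.card)) ≤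
        c' * (K * Real.log T) * ∏ p ∈ P, (c' * e p / (1 + Real.log P.card)) := by
      intro c' hc'
      have hm : 0 < min c₁ c₂ := lt_min hc₁ hc₂
      refine mul_le_mul ?_ (Finset.prod_le_prod (fun p hp => ?_) fun p hp => ?_)
        (Finset.prod_nonneg fun p hp => ?_) ?_
      · exact mul_le_mul_of_nonneg_right hc' (by positivity)
      · have := (he p hp).1
        positivity
      · have := (he p hp).1
        refine div_le_div_of_nonneg_right ?_ (by positivity)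
        exact mul_le_mul_of_nonneg_right hc' this.le
      · have := (he p hp).1
        positivity
      · have : 0 ≤ c' := hm.le.trans hc'
        positivity
    constructor
    · intro U hU hUT hUv
      refine (hmono c₁ (min_le_left _ _)).trans ?_
      refine (h₁ T ((le_max_left _ _).trans hTT) K (le_trans ?_ hK1) hK2 P hP e he
        (hlen.trans (mul_le_mul_of_nonneg_right (min_le_left _ _) hlog)) z hz U hU hUT hUv).trans ?_
      · exact Real.rpow_le_rpow_of_exponent_le hT (by linarith [min_le_left c₁ c₂])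
      · refine le_of_eq ?_
        congr 2
        ext x
        rw [Set.mem_ofPred_eq, Set.mem_ofPred_eq]
        constructor
        · rintro ⟨h1, h2, h3⟩
          exact ⟨h1, fun j => ((simple_iff (by linarith)).1 (h2 j)).2.2, h3⟩
        · rintro ⟨h1, h2, t, ht1, ht2, ht3, ht4⟩
          refine ⟨h1, fun j => (simple_iff (by linarith)).2 ?_, t, ht1, ht2, ht3, ht4⟩
          have h5 := hUT (ht3 j)
          exact ⟨by linarith [h5.1], by linarith [h5.2], h2 j⟩
    · refine (hmono c₂ (min_le_right _ _)).trans ?_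
      refine (h₂ T ((le_max_right _ _).trans hTT) K (le_trans ?_ hK1) hK2 P hP e he
        (hlen.trans (mul_le_mul_of_nonneg_right (min_le_right _ _) hlog)) z hz).trans ?_
      · exact Real.rpow_le_rpow_of_exponent_le hT (by linarith [min_le_right c₁ c₂])
      · refine le_of_eq ?_
        congr 2
        ext x
        rw [Set.mem_ofPred_eq, Set.mem_ofPred_eq]
        exact and_congr_right' (and_congr_left' (forall_congr' fun j =>
          simple_iff (by linarith)))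
  · intro k Λ ε η hk hΛ0 hΛ hε hη
    obtain ⟨c, T₀, hc, h⟩ := Pool.Agent.J4.H50.Kl.clusters_all k (by omega) Λ hΛ0 hΛ ε η hε hη
    refine ⟨c, max T₀ 1, hc, fun T hTT K hK1 hK2 z hz => ?_⟩
    have hT : 1 ≤ T := (le_max_right _ _).trans hTT
    refine (h T ((le_max_left _ _).trans hTT) K hK1 hK2 z hz).trans ?_
    refine le_of_eq ?_
    congr 2
    ext x
    rw [Set.mem_ofPred_eq, Set.mem_ofPred_eq]
    exact and_congr_right' (and_congr_left' (forall_congr' fun j =>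
      simple_iff (by linarith)))

end Pool.Agent.Results.MP_67227b_nt.TuplesEveryWeight
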