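import Pool.Agent.J4.H45.KL.AllT

/-!
# Upper bounds for all k-level correlations, in every weight and over Bohr sets

Assume the Riemann hypothesis. Let `k = n + 1 ≥ 2` and let `B = ∏ [x_i, y_i]` be a box in `ℝ^(k-1)`. There
are absolute constants `C`, `T₀` with the following properties; nothing depends on `k` or on the box.

1. For `T ≥ T₀`, `T ^ (63 / 64) ≤ K ≤ T / 2`, every Dirichlet polynomial `R(t) = ∑ r(n) n ^ (- i t)` over
integers `n ≤ T ^ (1 / 64)` with arbitrary complex coefficients and every box with `|x_i|, |y_i|` at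
most `T log T / 160` the sum of `|R(γ_{j_k})|²` over the `k`-tuples of pairwise distinct indices with
`γ_{j_k}` in `(T, T + K]` and the differences `(γ_{j_i} - γ_{j_k}) log T / 2π` in `B` is at most
`∏ C (1 + y_i - x_i + (k - 1) / log k) · K log T ∑ |r(n)|²`.

2. For every finite set `P` of primes, all tolerances `0 < e_p ≤ 1` with
`∑ (log p) / e_p ≤ (log T) / 64` and all points `z_p` of the unit circle, at most
`∏ C (1 + y_i - x_i + (k - 1) / log k) · ∏ (8 e_p) · K log T` of these `k`-tuples satisfy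
`|p ^ (i γ_{j_k}) - z_p| ≤ e_p` for all `p` in `P`.

3. For all `T ≥ 2` and all boxes with `|x_i|, |y_i| ≤ log T`,
`N_k(T; B) ≤ ∏ C (1 + y_i - x_i + (k - 1) / log k) · T log T`.

So all the k-level correlations have at most the expected order of magnitude, in every weight `|R|²`
and at every position, uniformly in `k`, the box and the weight.

Idea of the proof: a positive band-limited kernel of width `ℓ = c log T / j` bounds the number of zeros
near `t + u` by `O(j) + |P(t + u)|`, `P` a polynomial over the primes `p ≤ exp (2 ℓ)`; multiplication by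
`P(· + u)` multiplies the sum of the squares of the coefficients of a polynomial of length
`T ^ (1 / 8)` by at most `C log T / ℓ`. This gives the moments of `P(· + u)` in every weight up to order
`c log T / ℓ`, hence a bound `exp (- c j log j)` for the probability of `j` zeros in the window at `t + u`,
with the zeros `t` counted with weight `|R(t)|²`; then Hölder's inequality. For 2 the weight is a
product of Fejér kernels.
-/

open Filter Topology Complex

namespace Pool.Agent.Results.MP_67227b_nt.UpperBoundsEveryWeight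

/-- the phase `exp (i ϑ(t))`, with `ϑ(t) = arg Γ(1/4 + i t / 2) - (t / 2) log π` -/
noncomputable def phase (t : ℝ) : ℂ :=
  Gamma (1 / 4 + I * t / 2) / ‖Gamma (1 / 4 + I * t / 2)‖ * cexp (-(I * (t / 2) * Real.log Real.pi))

/-- Hardy's function `Z(t) = exp (i ϑ(t)) ζ(1/2 + i t)` -/
noncomputable def Z (t : ℝ) : ℂ := phase t * riemannZeta (1 / 2 + I * t)

/-- the multiplicity of a real zero `t` of `Z`: the least `m ≥ 1` such that the `m`-th derivative of
`Z` at `t` is not zero -/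
noncomputable def mlt (t : ℝ) : ℕ := sInf {m : ℕ | 1 ≤ m ∧ iteratedDeriv m Z t ≠ 0}

/-- the indices of the ordinates `γ_j`: the pairs `j = (t, l)`, `t > 0` a zero of `Z` (so `γ_j = t`) and
`l` less than its multiplicity -/
def idx : Set (ℝ × ℕ) := {p | 0 < p.1 ∧ Z p.1 = 0 ∧ p.2 < mlt p.1}

/-- the `(n + 1)`-tuples of pairwise distinct indices such that the differences of the ordinates from
the last one, times `log T / 2π`, are in the box `∏ [x_i, y_i]` -/
def tuples {n : ℕ} (T : ℝ) (x y : Fin n → ℝ) : Set (Fin (n + 1) → ℝ × ℕ) :=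
  {f | Function.Injective f ∧ (∀ i, f i ∈ idx) ∧ ∀ i : Fin n,
    x i ≤ ((f i.castSucc).1 - (f (Fin.last n)).1) * (Real.log T / (2 * Real.pi)) ∧
    ((f i.castSucc).1 - (f (Fin.last n)).1) * (Real.log T / (2 * Real.pi)) ≤ y i}

/-- `N_k(T; B)`, `k = n + 1`: the number of these tuples with all ordinates at most `T` -/
noncomputable def Nk {n : ℕ} (T : ℝ) (x y : Fin n → ℝ) : ℕ :=
  {f | f ∈ tuples T x y ∧ ∀ i, (f i).1 ≤ T}.ncard

/-- the product of the `C (1 + (y_i - x_i) + n / log (n + 1))` -/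
noncomputable def bound {n : ℕ} (C : ℝ) (x y : Fin n → ℝ) : ℝ :=
  ∏ i, (C * (1 + (y i - x i) + n / Real.log (n + 1)))

/-- the Dirichlet polynomial `∑ r(n) n ^ (- i t)`, `n` in `S` -/
noncomputable def R (S : Finset ℕ) (r : ℕ → ℂ) (t : ℝ) : ℂ :=
  ∑ n ∈ S, r n * (n : ℂ) ^ (-(I * t))

/-- **Theorem.** Assume the Riemann hypothesis. There are `C`, `T₀` such that:
* for all `T ≥ T₀`, all `K` with `T ^ (63 / 64) ≤ K ≤ T / 2`, all `n ≥ 1` and all boxes `∏ [x_i, y_i]` in
  `ℝ^n` with `|x_i|, |y_i| ≤ T log T / 160`: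
  - the set of the `(n + 1)`-tuples of the box with last ordinate in `(T, T + K]` is finite;
  - for every Dirichlet polynomial `R` over integers `≤ T ^ (1 / 64)` the sum of `|R(t)|²` over these
    tuples, `t` the last ordinate, is at most `bound C x y * K log T ∑ |r(n)|²`;
  - for all finite sets `P` of primes, `0 < e_p ≤ 1` with `∑ (log p) / e_p ≤ (log T) / 64` and
    `|z_p| = 1` the number of these tuples whose last ordinate `t` satisfies
    `|p ^ (i t) - z_p| ≤ e_p` for all `p` in `P` is at most `bound C x y * K log T ∏ (8 e_p)`;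
* for all `T ≥ 2`, all `n ≥ 1` and all boxes `∏ [x_i, y_i]` in `ℝ^n` with `|x_i|, |y_i| ≤ log T` the set
  of the `(n + 1)`-tuples of the box with all ordinates at most `T` is finite, and their number
  `N_(n + 1)(T; B)` is at most `bound C x y * T log T`. -/
theorem result (hRH : RiemannHypothesis) : ∃ C T₀ : ℝ, 1 ≤ C ∧
    (∀ T : ℝ, T₀ ≤ T → ∀ K : ℝ, T ^ (63 / 64 : ℝ) ≤ K → K ≤ T / 2 → ∀ n : ℕ, 1 ≤ n →
      ∀ x y : Fin n → ℝ, (∀ i, x i ≤ y i) → (∀ i, |x i| ≤ T * Real.log T / 160) →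
      (∀ i, |y i| ≤ T * Real.log T / 160) →
      {f | f ∈ tuples T x y ∧ T < (f (Fin.last n)).1 ∧ (f (Fin.last n)).1 ≤ T + K}.Finite ∧
      (∀ S : Finset ℕ, (∀ n ∈ S, 1 ≤ n ∧ (n : ℝ) ≤ T ^ (1 / 64 : ℝ)) → ∀ r : ℕ → ℂ,
        ∑ᶠ f ∈ {f | f ∈ tuples T x y ∧ T < (f (Fin.last n)).1 ∧ (f (Fin.last n)).1 ≤ T + K},
          ‖R S r (f (Fin.last n)).1‖ ^ 2 ≤
          bound C x y * (K * Real.log T * ∑ n ∈ S, ‖r n‖ ^ 2)) ∧
      (∀ P : Finset ℕ, (∀ p ∈ P, p.Prime) → ∀ e : ℕ → ℝ, (∀ p ∈ P, 0 < e p ∧ e p ≤ 1) →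
        ∑ p ∈ P, Real.log p / e p ≤ 1 / 64 * Real.log T → ∀ z : ℕ → ℂ, (∀ p, ‖z p‖ = 1) →
        ({f | f ∈ tuples T x y ∧ T < (f (Fin.last n)).1 ∧ (f (Fin.last n)).1 ≤ T + K ∧
          ∀ p ∈ P, ‖(p : ℂ) ^ (I * ((f (Fin.last n)).1 : ℂ)) - z p‖ ≤ e p}.ncard : ℝ) ≤
          bound C x y * (K * Real.log T * ∏ p ∈ P, (8 * e p)))) ∧
    (∀ T : ℝ, 2 ≤ T → ∀ n : ℕ, 1 ≤ n → ∀ x y : Fin n → ℝ, (∀ i, x i ≤ y i) →
      (∀ i, |x i| ≤ Real.log T) → (∀ i, |y i| ≤ Real.log T) →
      {f | f ∈ tuples T x y ∧ ∀ i, (f i).1 ≤ T}.Finite ∧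
      (Nk T x y : ℝ) ≤ bound C x y * (T * Real.log T)) := by
  obtain ⟨C1, T1, hC1, hT1, h1⟩ := J4.H45.KL.tup1 hRH
  obtain ⟨C2, T2, hC2, hT2, h2⟩ := J4.H45.KL.tup2 hRH
  obtain ⟨C3, hC3, h3⟩ := J4.H45.KL.tup3 hRH
  have e63 : (1 - 1 / 64 : ℝ) = 63 / 64 := by norm_num
  set C := max C1 (max C2 C3) with hC
  have hC1' : C1 ≤ C := le_max_left _ _
  have hC2' : C2 ≤ C := (le_max_left _ _).trans (le_max_right _ _)
  have hC3' : C3 ≤ C := (le_max_right _ _).trans (le_max_right _ _)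
  have hb : ∀ (C' : ℝ), 0 ≤ C' → C' ≤ C → ∀ n : ℕ, 1 ≤ n → ∀ x y : Fin n → ℝ,
      (∀ i, x i ≤ y i) →
      (∏ i, (C' * (1 + (y i - x i) + J4.H45.KL.Mk n))) ≤ bound C x y := by
    intro C' hC'0 hC'C n hn x y hxy
    have hM := J4.H45.KL.Mk_pos hn
    refine Finset.prod_le_prod (fun i _ => ?_) fun i _ => ?_
    · have := hxy i
      exact mul_nonneg hC'0 (by linarith)
    · have := hxy i
      exact mul_le_mul_of_nonneg_right hC'C (by
        have : 0 ≤ 1 + (y i - x i) + J4.H45.KL.Mk n := by linarith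
        exact this)
  refine ⟨C, max T1 T2, hC1.trans hC1', ?_, ?_⟩
  · intro T hT K hK1 hK2 n hn x y hxy hx hy
    rw [← e63] at hK1
    have hTT1 : T1 ≤ T := (le_max_left _ _).trans hT
    have hTT2 : T2 ≤ T := (le_max_right _ _).trans hT
    have hTp : 1 ≤ T := by linarith
    have hL : 0 ≤ Real.log T := Real.log_nonneg hTp
    have hK0 : 0 ≤ K := le_trans (by positivity) hK1
    refine ⟨?_, ?_, ?_⟩
    · exact (h1 T hTT1 K hK1 hK2 ∅ (fun k hk => by simp at hk) (fun _ => 0) n hn x y hxy hx hy _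
        (fun f hf => ⟨hf.1.2.1, hf.2.1, hf.2.2, hf.1.2.2⟩)).1
    · intro S hS r
      have h := (h1 T hTT1 K hK1 hK2 S hS r n hn x y hxy hx hy
        {f | f ∈ tuples T x y ∧ T < (f (Fin.last n)).1 ∧ (f (Fin.last n)).1 ≤ T + K}
        (fun f hf => ⟨hf.1.2.1, hf.2.1, hf.2.2, hf.1.2.2⟩)).2
      simp only [← J4.H45.MT.RP_eq hS] at h
      refine h.trans ?_
      refine mul_le_mul_of_nonneg_right (hb C1 (by linarith) hC1' n hn x y hxy) ?_
      exact mul_nonneg (mul_nonneg hK0 hL) (N802.w1_nonneg S r)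
    · intro P hP e he hlen z hz
      have h := (h2 T hTT2 K hK1 hK2 n hn x y hxy hx hy P hP e he hlen z hz
        {f | f ∈ tuples T x y ∧ T < (f (Fin.last n)).1 ∧ (f (Fin.last n)).1 ≤ T + K ∧
          ∀ p ∈ P, ‖(p : ℂ) ^ (I * ((f (Fin.last n)).1 : ℂ)) - z p‖ ≤ e p}
        (fun f hf => ⟨hf.1.2.1, hf.2.1, hf.2.2.1, hf.1.2.2, hf.2.2.2⟩)).2
      refine h.trans ?_
      refine mul_le_mul_of_nonneg_right (hb C2 (by linarith) hC2' n hn x y hxy) ?_
      refine mul_nonneg (mul_nonneg hK0 hL) (Finset.prod_nonneg fun p hp => ?_)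
      have := (he p hp).1
      linarith
  · intro T hT n hn x y hxy hx hy
    have h := h3 T hT n hn x y hxy hx hy {f | f ∈ tuples T x y ∧ ∀ i, (f i).1 ≤ T}
      (fun f hf => ⟨hf.1.2.1, hf.2, hf.1.2.2⟩)
    have hL : 0 ≤ Real.log T := Real.log_nonneg (by linarith)
    refine ⟨h.1, h.2.trans ?_⟩
    exact mul_le_mul_of_nonneg_right (hb C3 (by linarith) hC3' n hn x y hxy)
      (mul_nonneg (by linarith) hL)

end Pool.Agent.Results.MP_67227b_nt.UpperBoundsEveryWeight
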